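import Mathlib
import Pool.Agent.H709Z.CP5Top

set_option autoImplicit false

open Matrix

namespace Pool.Agent.Results.MP_a20134_al.ANoRational

/-- A rational matrix on the boundary of `CP₅` and in the interior of `DNN₅` (both taken in the
space of real symmetric `5 × 5` matrices) that has a square factorisation, and none of whose square
factorisations is rational in sense (i) or in sense (ii). -/
theorem result : ∃ A : {S : Matrix (Fin 5) (Fin 5) ℝ // S.IsSymm},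
    (∀ i j, ∃ q : ℚ, A.1 i j = (q : ℝ)) ∧
    A ∈ frontier {S : {S : Matrix (Fin 5) (Fin 5) ℝ // S.IsSymm} |
      ∃ m : ℕ, 1 ≤ m ∧ ∃ C : Matrix (Fin 5) (Fin m) ℝ, (∀ i j, 0 ≤ C i j) ∧ S.1 = C * Cᵀ} ∧
    A ∈ interior {S : {S : Matrix (Fin 5) (Fin 5) ℝ // S.IsSymm} |
      S.1.PosSemidef ∧ ∀ i j, 0 ≤ S.1 i j} ∧
    (∃ B : Matrix (Fin 5) (Fin 5) ℝ, (∀ i j, 0 ≤ B i j) ∧ A.1 = B * Bᵀ) ∧
    ∀ B : Matrix (Fin 5) (Fin 5) ℝ, (∀ i j, 0 ≤ B i j) → A.1 = B * Bᵀ →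
      (∃ j i l, Irrational (B i j * B l j)) ∧ ∃ i j, Irrational (B i j) :=
  Pool.Agent.H709Z.CP5.main

end Pool.Agent.Results.MP_a20134_al.ANoRational
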